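import Pool.Agent.Helper70.MM.Goals

/-!
# A circle has finite length
-/

open MeasureTheory Set Metric Filter
open scoped ENNReal Topology NNReal
open Pool.Agent.Results.MP_91ee6f_gt
open Pool.Agent.Helper70.MM

namespace Pool.Agent.Helper51.MM

/-- The parametrisation of a circle. -/
noncomputable def fc (R : ℝ) (t : ℝ) : En 2 :=
  (R * Real.cos t) • EuclideanSpace.single 0 1 + (R * Real.sin t) • EuclideanSpace.single 1 1

lemma fc_lip (R : ℝ) : LipschitzWith (2 * ‖R‖₊) (fc R) := by
  refine LipschitzWith.of_dist_le_mul fun s t => ?_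
  have h1 := Real.lipschitzWith_cos.dist_le_mul s t
  have h2 := Real.lipschitzWith_sin.dist_le_mul s t
  simp only [NNReal.coe_one, one_mul] at h1 h2
  rw [Real.dist_eq] at h1 h2
  have e : fc R s - fc R t = (R * (Real.cos s - Real.cos t)) • EuclideanSpace.single 0 1 +
      (R * (Real.sin s - Real.sin t)) • EuclideanSpace.single 1 1 := by
    unfold fc
    module
  rw [dist_eq_norm, e]
  refine (norm_add_le _ _).trans ?_
  rw [norm_smul, norm_smul, EuclideanSpace.norm_single, EuclideanSpace.norm_single, norm_one,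
    mul_one, mul_one, Real.norm_eq_abs, Real.norm_eq_abs, abs_mul, abs_mul]
  have hR := abs_nonneg R
  have a1 := mul_le_mul_of_nonneg_left h1 hR
  have a2 := mul_le_mul_of_nonneg_left h2 hR
  push_cast
  rw [Real.norm_eq_abs]
  nlinarith

lemma fc_surj (R : ℝ) : sphere (0 : En 2) R ⊆ fc R '' Icc (-Real.pi) Real.pi := by
  intro y hy
  have hn : ‖y‖ = R := by simpa using hy
  set z : ℂ := ⟨y 0, y 1⟩ with hz
  have hzn : ‖z‖ = R := by
    rw [← hn, EuclideanSpace.norm_eq, Fin.sum_univ_two, Complex.norm_def, Complex.normSq_mk]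
    congr 1
    simp only [Real.norm_eq_abs, sq_abs]
    ring
  refine ⟨z.arg, ⟨(Complex.neg_pi_lt_arg z).le, Complex.arg_le_pi z⟩, ?_⟩
  have h1 := Complex.norm_mul_cos_arg z
  have h2 := Complex.norm_mul_sin_arg z
  rw [hzn] at h1 h2
  unfold fc
  rw [h1, h2]
  ext i
  fin_cases i <;> simp [hz]

theorem circ : CIRC := by
  intro R
  have h := (fc_lip R).hausdorffMeasure_image_le (d := 1) zero_le_one (Icc (-Real.pi) Real.pi)
  refine ((measure_mono (fc_surj R)).trans h).trans_lt ?_
  rw [hausdorffMeasure_real, Real.volume_Icc]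
  refine ENNReal.mul_lt_top ?_ ENNReal.ofReal_lt_top
  rw [ENNReal.rpow_one]
  exact ENNReal.coe_lt_top

end Pool.Agent.Helper51.MM
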