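import Pool.Agent.Helper70.MM.Goals

/-!
# The potential of the uniform measure on a sphere
-/

open MeasureTheory Set Metric Filter
open scoped ENNReal Topology
open Pool.Agent.Results.MP_91ee6f_gt
open Pool.Agent.Helper70.MM

namespace Pool.Agent.Helper51.MM

variable {n : ℕ}

lemma cont_potential (μ : Measure (En n)) [IsFiniteMeasure μ] : Continuous (potential μ) := by
  refine continuous_of_dominated (bound := fun _ => 1) ?_ ?_ (integrable_const _) ?_
  · intro x
    exact (by fun_prop : Continuous fun y : En n => Real.exp (-dist x y)).aestronglyMeasurable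
  · intro x
    refine Filter.Eventually.of_forall fun y => ?_
    rw [Real.norm_eq_abs, abs_of_pos (Real.exp_pos _), Real.exp_le_one_iff]
    linarith [dist_nonneg (x := x) (y := y)]
  · exact Filter.Eventually.of_forall fun y => by fun_prop

lemma potential_map (g : En n ≃ₗᵢ[ℝ] En n) (μ : Measure (En n)) (hμ : μ.map g = μ) (x : En n) :
    potential μ (g x) = potential μ x := by
  unfold potential
  conv_lhs => rw [← hμ]
  rw [integral_map g.continuous.measurable.aemeasurable
    (by fun_prop : Continuous fun y : En n => Real.exp (-dist (g x) y)).aestronglyMeasurable]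
  simp only [LinearIsometryEquiv.dist_map]

theorem minp : SPH1 → SPH2 → QCALL → MINP := by
  intro h1 h2 hq n hn R hR
  obtain ⟨hprob, hae, -⟩ := h1 n hn R
  have hae' : ∀ᵐ y ∂(sphUnif n R), ‖y‖ = R := hae hR.le
  have hrad : ∀ x x' : En n, ‖x‖ = ‖x'‖ →
      potential (sphUnif n R) x = potential (sphUnif n R) x' := by
    intro x x' hxx
    have e := potential_map _ (sphUnif n R)
      ((h2 n R).1 (Submodule.reflection (ℝ ∙ (x - x'))ᗮ)) x
    rw [Submodule.reflection_sub hxx] at e
    exact e.symm
  have hcen : potential (sphUnif n R) 0 = Real.exp (-R) := by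
    unfold potential
    have e : (fun y : En n => Real.exp (-dist 0 y)) =ᵐ[sphUnif n R] fun _ => Real.exp (-R) := by
      filter_upwards [hae'] with y hy
      rw [dist_zero_left, hy]
    rw [integral_congr_ae e]
    simp
  have hsph : ∀ x : En n, ‖x‖ = R → potential (sphUnif n R) x = sphEnergy n R := by
    intro x hx
    unfold sphEnergy
    have e : (fun y : En n => potential (sphUnif n R) y) =ᵐ[sphUnif n R]
        fun _ => potential (sphUnif n R) x := by
      filter_upwards [hae'] with y hy
      exact hrad _ _ (hy.trans hx.symm)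
    rw [integral_congr_ae e]
    simp
  refine ⟨hcen, hsph, hrad, fun x hx => ?_⟩
  rcases hx.eq_or_lt with hx | hx
  · rw [hsph x hx]
    exact min_le_right _ _
  · -- a unit vector
    obtain ⟨e, he⟩ : ∃ e : En n, ‖e‖ = 1 :=
      ⟨EuclideanSpace.single (⟨0, by omega⟩ : Fin n) (1 : ℝ), by simp⟩
    have hU : ∀ z : En n, U (sphUnif n R) 0 z = potential (sphUnif n R) z := by
      intro z
      unfold U potential
      simp only [om_zero]
    have hQ := hq n hn R hR 0 e he
    have hnorm : ∀ r : ℝ, 0 ≤ r → ‖r • e‖ = r := fun r hr => by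
      rw [norm_smul, he, mul_one, Real.norm_of_nonneg hr]
    have hQ' : ∀ c : ℝ, ‖x‖ < c → c < R →
        min (Real.exp (-R)) (potential (sphUnif n R) (c • e)) ≤ potential (sphUnif n R) x := by
      intro c hc hcR
      have h := hQ 0 ‖x‖ c le_rfl (norm_nonneg _) hc.le hcR
      simp only [hU, zero_smul, hcen] at h
      rw [hrad x (‖x‖ • e) (hnorm _ (norm_nonneg _)).symm]
      exact h
    have hc : Continuous fun c : ℝ => min (Real.exp (-R)) (potential (sphUnif n R) (c • e)) :=
      continuous_const.min ((cont_potential _).comp (continuous_id.smul continuous_const))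
    have hlim : Tendsto (fun c : ℝ => min (Real.exp (-R)) (potential (sphUnif n R) (c • e)))
        (𝓝[<] R) (𝓝 (min (Real.exp (-R)) (potential (sphUnif n R) (R • e)))) :=
      (hc.tendsto R).mono_left nhdsWithin_le_nhds
    rw [← hsph (R • e) (hnorm R hR.le)]
    refine le_of_tendsto hlim ?_
    filter_upwards [Ioo_mem_nhdsLT hx] with c hc
    exact hQ' c hc.1 hc.2

end Pool.Agent.Helper51.MM
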